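import Pool.Agent.Helper56.TOF.Goals

/-!
Project TOF (MP_f32c9c_an), packet ENU (helper24): enumeration of the centres of a line.
-/

set_option autoImplicit false

open Set Filter Topology MeasureTheory

open scoped ContDiff

namespace Pool.Agent.Helper24.TOF

open Pool.Agent.Helper56.RZ Pool.Agent.Helper30.CIR Pool.Agent.Helper56.TOF

/-- two different centres differ by more than `7` -/
theorem centre_sep {K : ℕ} {s : WithTop ℕ∞} {M : Set (E K)} {A : ℝ → E K → E K}
    {b B tau : E K → ℝ} {p x : E K} (hF : Flow s M A) (hB : Box s M A b B tau p) (hx : x ∈ M)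
    {a a' : ℝ} (ha : Centre A B tau x a) (ha' : Centre A B tau x a') (h : a < a') :
    a + 7 < a' := by
  by_contra hc
  push Not at hc
  set u : ℝ := (a' - a) / 2 with hu
  have hu0 : 0 < u := by rw [hu]; linarith
  have hu7 : u ≤ 7 / 2 := by rw [hu]; linarith
  have h1 := hB.eqv (A a x) (hF.maps a hx) u ha.1 (by rw [ha.2]; norm_num)
    (by rw [ha.2, zero_add, abs_of_pos hu0]; exact hu7)
  have h2 := hB.eqv (A a' x) (hF.maps a' hx) (-u) ha'.1 (by rw [ha'.2]; norm_num)
    (by rw [ha'.2, zero_add, abs_neg, abs_of_pos hu0]; exact hu7)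
  rw [← hF.add u a x hx, ha.2] at h1
  rw [← hF.add (-u) a' x hx, ha'.2] at h2
  have h3 : u + a = -u + a' := by rw [hu]; ring
  rw [h3] at h1
  have := h1.2.symm.trans h2.2
  linarith

/-- the centre before the point -/
theorem centre_back {K : ℕ} {s : WithTop ℕ∞} {M : Set (E K)} {A : ℝ → E K → E K}
    {b B tau : E K → ℝ} {p x : E K} (hB : Box s M A b B tau p) (hx : x ∈ M)
    (hBx : 0 < B x) (h1 : 5 / 2 < tau x) (h2 : tau x ≤ 17 / 5) :
    Centre A B tau x (-tau x) := by
  have h := hB.eqv x hx (-tau x) hBx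
    (by rw [abs_of_pos (by linarith)]; linarith) (by rw [add_neg_cancel]; norm_num)
  refine ⟨?_, ?_⟩
  · rw [h.1]
    exact hBx
  · rw [h.2, add_neg_cancel]

theorem gENU : StmtENU := by
  intro K s M A b B tau p x hF hB hx hBx ht1 ht2 hub
  have hsep : ∀ {a a' : ℝ}, Centre A B tau x a → Centre A B tau x a' → a < a' → a + 7 < a' :=
    fun ha ha' h => centre_sep hF hB hx ha ha' h
  have hback : Centre A B tau x (-tau x) := centre_back hB hx hBx ht1 ht2
  have hnext : ∀ v : ℝ, ∃ m, v < m ∧ -(5 / 2) < m ∧ Centre A B tau x m ∧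
      ∀ t, v < t → -(5 / 2) < t → Centre A B tau x t → m ≤ t := by
    intro v
    set P : Set ℝ := {t | v < t ∧ -(5 / 2) < t ∧ Centre A B tau x t} with hP
    have hne : P.Nonempty := by
      obtain ⟨t, h1, h2⟩ := hub (max v (-(5 / 2)))
      exact ⟨t, lt_of_le_of_lt (le_max_left _ _) h1, lt_of_le_of_lt (le_max_right _ _) h1, h2⟩
    have hbd : BddBelow P := ⟨v, fun t ht => ht.1.le⟩
    obtain ⟨t1, ht1P, ht1s⟩ := exists_lt_of_csInf_lt hne (lt_add_one (sInf P))
    refine ⟨t1, ht1P.1, ht1P.2.1, ht1P.2.2, ?_⟩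
    intro t h1 h2 h3
    by_contra hlt
    push Not at hlt
    have h4 := hsep h3 ht1P.2.2 hlt
    have h5 : sInf P ≤ t := csInf_le hbd ⟨h1, h2, h3⟩
    linarith
  choose f hf1 hf2 hf3 hf4 using hnext
  set a : ℕ → ℝ := fun n => Nat.rec (f (-(5 / 2))) (fun _ v => f v) n with ha
  have ha0 : a 0 = f (-(5 / 2)) := rfl
  have has : ∀ i, a (i + 1) = f (a i) := fun i => rfl
  have hcen : ∀ i, -(5 / 2) < a i ∧ Centre A B tau x (a i) := by
    intro i
    cases i with
    | zero => exact ⟨hf2 _, hf3 _⟩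
    | succ i => exact ⟨hf2 _, hf3 _⟩
  have h3 : 3 ≤ a 0 := by
    have := hsep hback (hcen 0).2 (by linarith [(hcen 0).1])
    linarith
  have hgap : ∀ i, a i + 7 ≤ a (i + 1) := by
    intro i
    exact (hsep (hcen i).2 (hcen (i + 1)).2 (by rw [has]; exact hf1 _)).le
  have hgrow : ∀ i : ℕ, (i : ℝ) ≤ a i := by
    intro i
    induction i with
    | zero => push_cast; linarith
    | succ i ih =>
      have := hgap i
      push_cast
      linarith
  refine ⟨a, h3, hgap, fun i => (hcen i).2, ?_⟩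
  intro t ht hct
  have hex : ∃ i : ℕ, t ≤ a i := by
    obtain ⟨n, hn⟩ := exists_nat_ge t
    exact ⟨n, hn.trans (hgrow n)⟩
  classical
  refine ⟨Nat.find hex, ?_⟩
  have hle := Nat.find_spec hex
  refine le_antisymm ?_ hle
  rcases Nat.eq_zero_or_pos (Nat.find hex) with h0 | h0
  · rw [h0, ha0]
    exact hf4 _ t ht ht hct
  · obtain ⟨j, hj⟩ := Nat.exists_eq_succ_of_ne_zero h0.ne'
    have hjlt : a j < t := by
      by_contra hcon
      push Not at hcon
      exact Nat.find_min hex (by omega) hcon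
    rw [hj, Nat.succ_eq_add_one, has]
    exact hf4 _ t hjlt ht hct

end Pool.Agent.Helper24.TOF
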